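import Pool.Agent.MDG.Stmts
import Pool.Agent.Helper67_HEC.CST

/-!
# Row CSR of squad MDG (MP_3faef8_co): minimal energy in a real coset
-/

set_option autoImplicit false

open Finset Matrix

namespace Pool.Agent.MDG.H81

open Pool.Agent.HEC Pool.Agent.MDG
open Pool.Agent.HEC.H67 (qe qe_nonneg qe_bound)

/-- **CSR** -/
theorem csr : CsrStmt := by
  intro I _ _ A M r hA
  rcases Nat.eq_zero_or_pos M with hM | hM
  · refine ⟨r, ⟨fun _ => 0, fun i => by simp⟩, ?_⟩
    intro z
    have e : (fun i => r i + (M : ℝ) * z i) = r := by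
      funext i
      rw [hM]
      simp
    rw [e]
  · obtain ⟨q, hq⟩ : ∃ q : (I → ℤ) → ℝ, q = fun z => qe A (fun i => r i + M * z i) := ⟨_, rfl⟩
    obtain ⟨S, hS⟩ : ∃ S : Set (I → ℤ), S = {z | q z ≤ q 0} := ⟨_, rfl⟩
    have hM1 : (1 : ℝ) ≤ M := by exact_mod_cast hM
    have hfin : S.Finite := by
      obtain ⟨C, hC⟩ : ∃ C : ℝ, C = ∑ i, |A i i| * |q 0| := ⟨_, rfl⟩
      obtain ⟨R, hR⟩ : ∃ R : ℝ, R = ∑ i, |r i| := ⟨_, rfl⟩
      have hR0 : 0 ≤ R := by
        rw [hR]
        exact Finset.sum_nonneg fun i _ => abs_nonneg _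
      obtain ⟨N, hN⟩ := exists_nat_gt (C + 1)
      obtain ⟨N', hN'⟩ := exists_nat_gt (N + R)
      apply Set.Finite.subset (Set.finite_Icc (fun _ : I => -(N' : ℤ)) (fun _ : I => (N' : ℤ)))
      intro z hz
      rw [hS] at hz
      have hz2 : q z ≤ q 0 := hz
      have key : ∀ i, |z i| ≤ (N' : ℤ) := by
        intro i
        have h3 : (r i + M * z i : ℝ) ^ 2 ≤ A i i * q z := by
          rw [hq]
          exact qe_bound A hA (fun i => r i + M * z i) i
        have hii : 0 < A i i := hA.diag_pos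
        have h4 : A i i * q z ≤ |A i i| * |q 0| := by
          rw [abs_of_pos hii]
          exact mul_le_mul_of_nonneg_left (hz2.trans (le_abs_self _)) hii.le
        have h5 : |A i i| * |q 0| ≤ C := by
          rw [hC]
          exact Finset.single_le_sum (f := fun i => |A i i| * |q 0|)
            (fun j _ => mul_nonneg (abs_nonneg _) (abs_nonneg _)) (Finset.mem_univ i)
        have hC0 : 0 ≤ C := (mul_nonneg (abs_nonneg _) (abs_nonneg _)).trans h5
        have h6 : (r i + M * z i : ℝ) ^ 2 ≤ (N : ℝ) ^ 2 := by nlinarith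
        have h7 : |(r i + M * z i : ℝ)| ≤ (N : ℝ) := abs_le_of_sq_le_sq h6 (by positivity)
        have h8 : |r i| ≤ R := by
          rw [hR]
          exact Finset.single_le_sum (f := fun i => |r i|) (fun j _ => abs_nonneg _)
            (Finset.mem_univ i)
        have h9 : |(M * z i : ℝ)| ≤ N + R := by
          have : (M * z i : ℝ) = (r i + M * z i) - r i := by ring
          rw [this]
          exact (abs_sub _ _).trans (add_le_add h7 h8)
        have h10 : |(z i : ℝ)| ≤ |(M * z i : ℝ)| := by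
          rw [abs_mul, abs_of_nonneg (by positivity : (0 : ℝ) ≤ M)]
          exact le_mul_of_one_le_left (abs_nonneg _) hM1
        have h11 : |(z i : ℝ)| ≤ (N' : ℝ) := (h10.trans h9).trans hN'.le
        exact_mod_cast h11
      constructor
      · intro i
        exact (abs_le.mp (key i)).1
      · intro i
        exact (abs_le.mp (key i)).2
    have hne : S.Nonempty := ⟨0, by rw [hS]; exact le_refl (q 0)⟩
    obtain ⟨z0, hz0, hmin⟩ := Set.exists_min_image S q hfin hne
    rw [hS] at hz0
    have hz0' : q z0 ≤ q 0 := hz0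
    refine ⟨fun i => r i + M * z0 i, ⟨z0, fun i => rfl⟩, ?_⟩
    intro z
    have e1 : (fun i => r i + (M : ℝ) * z0 i) ⬝ᵥ (A⁻¹ *ᵥ fun i => r i + (M : ℝ) * z0 i) =
        q z0 := by
      rw [hq]
      rfl
    have e2 : (fun i => r i + (M : ℝ) * z0 i + M * z i) =
        fun i => r i + (M : ℝ) * ((z0 + z) i : ℤ) := by
      funext i
      rw [Pi.add_apply]
      push_cast
      ring
    have e3 : (fun i => r i + (M : ℝ) * z0 i + M * z i) ⬝ᵥ
        (A⁻¹ *ᵥ fun i => r i + (M : ℝ) * z0 i + M * z i) = q (z0 + z) := by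
      rw [e2, hq]
      rfl
    rw [e1, e3]
    by_cases h : q (z0 + z) ≤ q 0
    · apply hmin
      rw [hS]
      exact h
    · exact hz0'.trans (not_le.mp h).le

end Pool.Agent.MDG.H81
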