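import Pool.Agent.MDG.Stmts

/-!
# Row CTL of squad MDG (MP_3faef8_co): control of the net flow at the high nodes
-/

set_option autoImplicit false

open Finset

namespace Pool.Agent.MDG.H81

open Pool.Agent.HEC Pool.Agent.MDG

lemma cnt_card {α : Type} [Fintype α] (p : α → Prop) [DecidablePred p] :
    cnt p = (univ.filter p).card := by
  unfold cnt
  congr

section ctl

variable {N E : Type} [Fintype E] (s t : E → N)

open Classical in
/-- incidence number of the node `x` and the edge `e` -/
noncomputable def gi (x : N) (e : E) : ℤ := (if s e = x then 1 else 0) - (if t e = x then 1 else 0)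

/-- twice the net flow of `w / 2` at `x` -/
noncomputable def Dn (w : E → ℤ) (x : N) : ℤ := ∑ e, gi s t x e * w e

/-- admissible functions (the doubles of the values) -/
structure Adm (J Br : E → Prop) (w : E → ℤ) : Prop where
  j : ∀ e, J e → w e = 1 ∨ w e = -1
  b : ∀ e, Br e → w e = 0 ∨ w e = 2 ∨ w e = -2
  z : ∀ e, ¬ J e → ¬ Br e → w e = 0

variable {s t}

omit [Fintype E] in
lemma gi_one {x : N} {e : E} (hst : s e ≠ t e) (h : s e = x ∨ t e = x) :
    gi s t x e = 1 ∨ gi s t x e = -1 := by
  unfold gi
  rcases h with h | h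
  · have h2 : t e ≠ x := fun h' => hst (h.trans h'.symm)
    rw [if_pos h, if_neg h2]
    left
    norm_num
  · have h2 : s e ≠ x := fun h' => hst (h'.trans h.symm)
    rw [if_pos h, if_neg h2]
    right
    norm_num

omit [Fintype E] in
lemma gi_zero {x : N} {e : E} (h : s e ≠ x) (h' : t e ≠ x) : gi s t x e = 0 := by
  unfold gi
  rw [if_neg h, if_neg h']
  norm_num

lemma even_Dn (hst : ∀ e, s e ≠ t e) {J Br : E → Prop} {w : E → ℤ}
    (hw : Adm J Br w) (x : N) (hx : Even (mdg s t J x)) : Even (Dn s t w x) := by
  classical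
  have h1 : (2 : ℤ) ∣ Dn s t w x - (mdg s t J x : ℤ) := by
    have e1 : Dn s t w x - (mdg s t J x : ℤ) =
        ∑ e, (gi s t x e * w e - (if J e ∧ (s e = x ∨ t e = x) then (1 : ℤ) else 0)) := by
      unfold Dn mdg cnt
      rw [Finset.card_filter, Nat.cast_sum, ← Finset.sum_sub_distrib]
      refine Finset.sum_congr rfl fun e _ => ?_
      by_cases h : J e ∧ (s e = x ∨ t e = x)
      · simp [h]
      · simp [h]
    rw [e1]
    refine Finset.dvd_sum fun e _ => ?_
    by_cases hx : s e = x ∨ t e = x
    · by_cases hj : J e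
      · rw [if_pos ⟨hj, hx⟩]
        rcases gi_one (hst e) hx with h | h <;> rcases hw.j e hj with h' | h' <;> rw [h, h'] <;>
          norm_num
      · rw [if_neg (fun h => hj h.1)]
        by_cases hb : Br e
        · rcases hw.b e hb with h' | h' | h' <;> rw [h']
          · simp
          · simp
          · simp
        · rw [hw.z e hj hb]
          simp
    · have hx' := not_or.mp hx
      rw [if_neg (fun h => hx h.2), gi_zero hx'.1 hx'.2]
      simp
  have h2 : (2 : ℤ) ∣ (mdg s t J x : ℤ) := by
    have := hx.two_dvd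
    exact_mod_cast this
  have h3 := dvd_add h1 h2
  rw [sub_add_cancel] at h3
  exact even_iff_two_dvd.mpr h3

/-- The change of the values at one node. -/
lemma step (hst : ∀ e, s e ≠ t e) {J Br : E → Prop} {w : E → ℤ} (hJB : ∀ e, ¬ (J e ∧ Br e))
    (hw : Adm J Br w) (x : N) (hx : Even (mdg s t J x)) {M : ℕ} (hM : 0 < M) (L : Finset E)
    (hL : L.card = M) (hLx : ∀ e ∈ L, s e = x ∨ t e = x)
    (hLJ : (∀ e ∈ L, J e) ∨ ∀ e ∈ L, Br e) (ρ : ℤ) :
    ∃ w' : E → ℤ, Adm J Br w' ∧ (∀ e, e ∉ L → w' e = w e) ∧
      (2 * M : ℤ) ∣ Dn s t w' x - 2 * ρ := by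
  classical
  obtain ⟨α, hα⟩ : ∃ α : ℤ, (α = -1 ∧ ∀ e ∈ L, J e) ∨ (α = 0 ∧ ∀ e ∈ L, Br e) := by
    rcases hLJ with h | h
    · exact ⟨-1, Or.inl ⟨rfl, h⟩⟩
    · exact ⟨0, Or.inr ⟨rfl, h⟩⟩
  let W : Finset E → E → ℤ := fun Q e =>
    if e ∈ L then gi s t x e * (α + (if e ∈ Q then 2 else 0)) else w e
  have hWL : ∀ Q e, e ∈ L → W Q e = gi s t x e * (α + (if e ∈ Q then 2 else 0)) :=
    fun Q e he => if_pos he
  have hWn : ∀ Q e, e ∉ L → W Q e = w e := fun Q e he => if_neg he
  have hadm : ∀ Q, Adm J Br (W Q) := by
    intro Q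
    refine ⟨?_, ?_, ?_⟩
    · intro e he
      by_cases h : e ∈ L
      · rw [hWL Q e h]
        rcases hα with ⟨ha, -⟩ | ⟨-, hb⟩
        · rw [ha]
          rcases gi_one (hst e) (hLx e h) with h1 | h1 <;> rw [h1] <;> by_cases h2 : e ∈ Q
          · rw [if_pos h2]
            left
            norm_num
          · rw [if_neg h2]
            right
            norm_num
          · rw [if_pos h2]
            right
            norm_num
          · rw [if_neg h2]
            left
            norm_num
        · exact absurd ⟨he, hb e h⟩ (hJB e)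
      · rw [hWn Q e h]
        exact hw.j e he
    · intro e he
      by_cases h : e ∈ L
      · rw [hWL Q e h]
        rcases hα with ⟨-, hb⟩ | ⟨ha, -⟩
        · exact absurd ⟨hb e h, he⟩ (hJB e)
        · rw [ha]
          rcases gi_one (hst e) (hLx e h) with h1 | h1 <;> rw [h1] <;> by_cases h2 : e ∈ Q
          · rw [if_pos h2]
            right
            left
            norm_num
          · rw [if_neg h2]
            left
            norm_num
          · rw [if_pos h2]
            right
            right
            norm_num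
          · rw [if_neg h2]
            left
            norm_num
      · rw [hWn Q e h]
        exact hw.b e he
    · intro e h1 h2
      by_cases h : e ∈ L
      · rcases hα with ⟨-, hb⟩ | ⟨-, hb⟩
        · exact absurd (hb e h) h1
        · exact absurd (hb e h) h2
      · rw [hWn Q e h]
        exact hw.z e h1 h2
  obtain ⟨R, hR⟩ : ∃ R : ℤ, R = ∑ e ∈ univ \ L, gi s t x e * w e := ⟨_, rfl⟩
  have hD : ∀ Q ⊆ L, Dn s t (W Q) x = R + M * α + 2 * (Q.card : ℤ) := by
    intro Q hQ
    unfold Dn
    rw [← Finset.sum_sdiff (Finset.subset_univ L), hR]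
    have e1 : ∑ e ∈ univ \ L, gi s t x e * W Q e = ∑ e ∈ univ \ L, gi s t x e * w e := by
      refine Finset.sum_congr rfl fun e he => ?_
      rw [hWn Q e (Finset.mem_sdiff.mp he).2]
    have e2 : ∑ e ∈ L, gi s t x e * W Q e = ∑ e ∈ L, (α + (if e ∈ Q then 2 else 0)) := by
      refine Finset.sum_congr rfl fun e he => ?_
      rw [hWL Q e he, ← mul_assoc]
      rcases gi_one (hst e) (hLx e he) with h1 | h1 <;> rw [h1] <;> ring
    have e3 : ∑ e ∈ L, (α + (if e ∈ Q then (2 : ℤ) else 0)) = M * α + 2 * (Q.card : ℤ) := by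
      rw [Finset.sum_add_distrib, Finset.sum_const, hL, nsmul_eq_mul, ← Finset.sum_filter,
        Finset.filter_mem_eq_inter, Finset.inter_eq_right.mpr hQ, Finset.sum_const, nsmul_eq_mul]
      ring
    rw [e1, e2, e3]
    ring
  have hev : Even (R + M * α) := by
    have h1 := even_Dn hst (hadm ∅) x hx
    rw [hD ∅ (Finset.empty_subset L)] at h1
    rw [Finset.card_empty, Nat.cast_zero, mul_zero, add_zero] at h1
    exact h1
  obtain ⟨c, hc⟩ := hev
  have hM0 : (M : ℤ) ≠ 0 := by exact_mod_cast hM.ne'
  have hMp : (0 : ℤ) < M := by exact_mod_cast hM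
  obtain ⟨q, hq⟩ : ∃ q : ℕ, (q : ℤ) = (ρ - c) % M :=
    ⟨((ρ - c) % M).toNat, Int.toNat_of_nonneg (Int.emod_nonneg _ hM0)⟩
  have hqM : q ≤ L.card := by
    have := Int.emod_lt_of_pos (ρ - c) hMp
    rw [← hq] at this
    rw [hL]
    exact_mod_cast this.le
  obtain ⟨Q, hQ, hQc⟩ := Finset.exists_subset_card_eq hqM
  refine ⟨W Q, hadm Q, fun e he => hWn Q e he, ?_⟩
  rw [hD Q hQ, hc, hQc, hq]
  have h4 : c + c + 2 * ((ρ - c) % M) - 2 * ρ = 2 * (((ρ - c) % M) - (ρ - c)) := by ring
  rw [h4]
  refine mul_dvd_mul_left 2 ?_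
  have h5 : (ρ - c) % M - (ρ - c) = M * (-((ρ - c) / M)) := by
    have := Int.emod_add_mul_ediv (ρ - c) M
    linarith
  rw [h5]
  exact dvd_mul_right _ _

end ctl

/-- **CTL** -/
theorem ctl : CtlStmt := by
  classical
  intro N E _ _ s t ord K M J Br high ρ hst hinj hM hJB hev hup hhigh
  have key : ∀ n : ℕ, ∀ X : Finset N, X.card = n → (∀ x ∈ X, ∀ x', ord x < ord x' → x' ∈ X) →
      ∃ w : E → ℤ, Adm J Br w ∧ ∀ x ∈ X, high x → (2 * M : ℤ) ∣ Dn s t w x - 2 * ρ x := by
    intro n
    induction n with
    | zero =>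
      intro X hX _
      refine ⟨fun e => if J e then 1 else 0, ⟨?_, ?_, ?_⟩, ?_⟩
      · intro e he
        exact Or.inl (if_pos he)
      · intro e he
        exact Or.inl (if_neg fun h => hJB e ⟨h, he⟩)
      · intro e he _
        exact if_neg he
      · intro x hx
        rw [Finset.card_eq_zero.mp hX] at hx
        exact absurd hx (Finset.notMem_empty x)
    | succ n ih =>
      intro X hX hcl
      have hne : X.Nonempty := by
        rw [← Finset.card_pos, hX]
        exact Nat.succ_pos n
      obtain ⟨x, hx, hmin⟩ := Finset.exists_min_image X ord hne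
      have hlt : ∀ x' ∈ X.erase x, ord x < ord x' := by
        intro x' hx'
        have h1 := Finset.mem_erase.mp hx'
        rcases lt_or_eq_of_le (hmin x' h1.2) with h | h
        · exact h
        · exact absurd (hinj h).symm h1.1
      obtain ⟨w, hw, hwX⟩ := ih (X.erase x) (by rw [Finset.card_erase_of_mem hx, hX]; rfl) (by
        intro y hy y' hyy'
        have h1 := Finset.mem_erase.mp hy
        refine Finset.mem_erase.mpr ⟨?_, hcl y h1.2 y' hyy'⟩
        intro h
        rw [h] at hyy'
        exact absurd (hlt y hy) (not_lt.mpr hyy'.le))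
      by_cases hh : high x
      · -- lower edges with a given property
        have low : ∀ P : E → Prop, K + M ≤ mdg s t P x → ∃ L : Finset E, L.card = M ∧
            (∀ e ∈ L, P e) ∧ (∀ e ∈ L, s e = x ∨ t e = x) ∧
            ∀ e ∈ L, (s e = x → ord (t e) < ord x) ∧ (t e = x → ord (s e) < ord x) := by
          intro P hP
          obtain ⟨U, hU⟩ : ∃ U : Finset E, U = univ.filter (fun e : E =>
            (s e = x ∧ ord x < ord (t e)) ∨ (t e = x ∧ ord x < ord (s e))) := ⟨_, rfl⟩
          obtain ⟨A, hA⟩ : ∃ A : Finset E, A = univ.filter (fun e : E =>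
            P e ∧ (s e = x ∨ t e = x)) := ⟨_, rfl⟩
          have hUc : U.card < K := by
            rw [hU, ← cnt_card]
            exact hup x
          have hAc : K + M ≤ A.card := by
            rw [hA, ← cnt_card]
            exact hP
          have hdc : M ≤ (A \ U).card := by
            have := Finset.le_card_sdiff U A
            omega
          obtain ⟨L, hL, hLc⟩ := Finset.exists_subset_card_eq hdc
          refine ⟨L, hLc, ?_, ?_, ?_⟩
          · intro e he
            have h1 := (Finset.mem_sdiff.mp (hL he)).1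
            rw [hA] at h1
            exact (Finset.mem_filter.mp h1).2.1
          · intro e he
            have h1 := (Finset.mem_sdiff.mp (hL he)).1
            rw [hA] at h1
            exact (Finset.mem_filter.mp h1).2.2
          · intro e he
            have h2 := (Finset.mem_sdiff.mp (hL he)).2
            rw [hU] at h2
            constructor
            · intro hs
              rcases lt_trichotomy (ord (t e)) (ord x) with h | h | h
              · exact h
              · exact absurd (hs.trans (hinj h).symm) (hst e)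
              · exact absurd (Finset.mem_filter.mpr ⟨Finset.mem_univ e, Or.inl ⟨hs, h⟩⟩) h2
            · intro ht
              rcases lt_trichotomy (ord (s e)) (ord x) with h | h | h
              · exact h
              · exact absurd ((hinj h).trans ht.symm) (hst e)
              · exact absurd (Finset.mem_filter.mpr ⟨Finset.mem_univ e, Or.inr ⟨ht, h⟩⟩) h2
        have fin : ∃ L : Finset E, L.card = M ∧ ((∀ e ∈ L, J e) ∨ ∀ e ∈ L, Br e) ∧
            (∀ e ∈ L, s e = x ∨ t e = x) ∧
            ∀ e ∈ L, (s e = x → ord (t e) < ord x) ∧ (t e = x → ord (s e) < ord x) := by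
          rcases hhigh x hh with h | h
          · obtain ⟨L, h1, h2, h3, h4⟩ := low J h
            exact ⟨L, h1, Or.inl h2, h3, h4⟩
          · obtain ⟨L, h1, h2, h3, h4⟩ := low Br h
            exact ⟨L, h1, Or.inr h2, h3, h4⟩
        obtain ⟨L, hLc, hLJ, hLx, hLo⟩ := fin
        obtain ⟨w', hw', hww', hdiv⟩ := step hst hJB hw x (hev x) hM L hLc hLx hLJ (ρ x)
        refine ⟨w', hw', ?_⟩
        intro y hy hyh
        by_cases hyx : y = x
        · rw [hyx]
          exact hdiv
        · have hye := Finset.mem_erase.mpr ⟨hyx, hy⟩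
          have hoy := hlt y hye
          have hD : Dn s t w' y = Dn s t w y := by
            unfold Dn
            refine Finset.sum_congr rfl fun e _ => ?_
            by_cases heL : e ∈ L
            · have h0 : gi s t y e = 0 := by
                rcases hLx e heL with h | h
                · refine gi_zero (fun h' => hyx (h'.symm.trans h)) (fun h' => ?_)
                  have h5 := (hLo e heL).1 h
                  rw [h'] at h5
                  exact absurd hoy (not_lt.mpr h5.le)
                · refine gi_zero (fun h' => ?_) (fun h' => hyx (h'.symm.trans h))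
                  have h5 := (hLo e heL).2 h
                  rw [h'] at h5
                  exact absurd hoy (not_lt.mpr h5.le)
              rw [h0, zero_mul, zero_mul]
            · rw [hww' e heL]
          rw [hD]
          exact hwX y hye hyh
      · refine ⟨w, hw, ?_⟩
        intro y hy hyh
        by_cases hyx : y = x
        · rw [hyx] at hyh
          exact absurd hyh hh
        · exact hwX y (Finset.mem_erase.mpr ⟨hyx, hy⟩) hyh
  obtain ⟨w, hw, hwX⟩ := key _ univ rfl (fun _ _ _ _ => Finset.mem_univ _)
  refine ⟨fun e => (w e : ℝ) / 2, ?_, ?_, ?_, ?_⟩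
  · intro e he
    show |(w e : ℝ) / 2| = 1 / 2
    rcases hw.j e he with h | h <;> rw [h] <;> norm_num
  · intro e he
    show |(w e : ℝ) / 2| ≤ 1
    rcases hw.b e he with h | h | h <;> rw [h] <;> norm_num
  · intro e h1 h2
    show (w e : ℝ) / 2 = 0
    rw [hw.z e h1 h2]
    norm_num
  · intro x
    obtain ⟨z, hz⟩ := even_Dn hst hw x (hev x)
    refine ⟨z, ?_, ?_⟩
    · have e1 : ((Dn s t w x : ℤ) : ℝ) = (z : ℝ) + z := by
        rw [hz]
        push_cast
        rfl
      have e2 : ((Dn s t w x : ℤ) : ℝ) / 2 = (∑ e, (if s e = x then (w e : ℝ) / 2 else 0)) -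
          (∑ e, (if t e = x then (w e : ℝ) / 2 else 0)) := by
        unfold Dn gi
        rw [← Finset.sum_sub_distrib]
        push_cast
        rw [Finset.sum_div]
        refine Finset.sum_congr rfl fun e _ => ?_
        by_cases h1 : s e = x <;> by_cases h2 : t e = x <;> simp [h1, h2] <;> ring
      rw [← e2, e1]
      ring
    · intro hh
      have h1 := hwX x (Finset.mem_univ x) hh
      rw [hz] at h1
      have h2 : z + z - 2 * ρ x = 2 * (z - ρ x) := by ring
      rw [h2] at h1
      exact (mul_dvd_mul_iff_left (by norm_num : (2 : ℤ) ≠ 0)).mp h1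

end Pool.Agent.MDG.H81
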